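import Pool.Agent.Y101.Ds.OrdDefs

/-!
# Positive lower density
-/

set_option autoImplicit false

open CategoryTheory AlgebraicGeometry NumberField IsDedekindDomain Filter

namespace Pool.Agent.Y101.Ds

variable {k : Type} [Field k] [NumberField k]

/-- The number of the places `v` in `S` with norm at most `x`. -/
noncomputable def count (S : Set (HeightOneSpectrum (𝓞 k))) (x : ℝ) : ℝ :=
  ({v ∈ S | (Ideal.absNorm v.asIdeal : ℝ) ≤ x}).ncard

/-- The lower density of `S` is positive. -/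
def PosDensity (S : Set (HeightOneSpectrum (𝓞 k))) : Prop :=
  ∃ c : ℝ, 0 < c ∧ ∀ᶠ x in atTop, c * count (Set.univ : Set (HeightOneSpectrum (𝓞 k))) x ≤
    count S x

lemma fin_count (S : Set (HeightOneSpectrum (𝓞 k))) (x : ℝ) :
    {v ∈ S | (Ideal.absNorm v.asIdeal : ℝ) ≤ x}.Finite := by
  have h := Ideal.finite_setOfPred_absNorm_le (S := 𝓞 k) ⌊x⌋₊
  refine (h.preimage (f := fun v : HeightOneSpectrum (𝓞 k) => v.asIdeal) ?_).subset ?_
  · intro v _ w _ hvw
    exact HeightOneSpectrum.ext hvw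
  · intro v hv
    exact Nat.le_floor hv.2

variable (k) in
lemma inf_places : Infinite (HeightOneSpectrum (𝓞 k)) := by
  have h : ∀ p : Nat.Primes, ∃ v : HeightOneSpectrum (𝓞 k), ((p : ℕ) : 𝓞 k) ∈ v.asIdeal := by
    intro p
    have hp0 : ((p : ℕ) : 𝓞 k) ≠ 0 := by exact_mod_cast p.2.ne_zero
    have hnu : ¬ IsUnit ((p : ℕ) : 𝓞 k) := by
      intro hu
      have h1 : IsUnit (Algebra.norm ℤ ((p : ℕ) : 𝓞 k)) := hu.map (Algebra.norm ℤ)
      have h2 : Algebra.norm ℤ ((p : ℕ) : 𝓞 k) = ((p : ℕ) : ℤ) ^ Module.finrank ℤ (𝓞 k) := by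
        have := Algebra.norm_algebraMap (S := 𝓞 k) ((p : ℕ) : ℤ)
        simpa using this
      rw [h2] at h1
      have h3 : Module.finrank ℤ (𝓞 k) ≠ 0 := by
        rw [RingOfIntegers.rank]
        exact Module.finrank_pos.ne'
      have h4 := (isUnit_pow_iff h3).1 h1
      have h5 := (Nat.prime_iff_prime_int.1 p.2).not_isUnit
      exact h5 h4
    obtain ⟨m, hm, hle⟩ := Ideal.exists_le_maximal (Ideal.span {((p : ℕ) : 𝓞 k)})
      (by rwa [Ne, Ideal.span_singleton_eq_top])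
    have hpm : ((p : ℕ) : 𝓞 k) ∈ m := hle (Ideal.mem_span_singleton_self _)
    exact ⟨⟨m, hm.isPrime, by
      intro h0
      rw [h0, Ideal.mem_bot] at hpm
      exact hp0 hpm⟩, hpm⟩
  choose f hf using h
  refine Infinite.of_injective f fun p q hpq => ?_
  by_contra hne
  have h1 := hf p
  have h2 := hf q
  rw [← hpq] at h2
  have h3 : Nat.Coprime (p : ℕ) (q : ℕ) :=
    (Nat.coprime_primes p.2 q.2).mpr fun h => hne (Subtype.ext h)
  obtain ⟨a, b, hab⟩ := Nat.isCoprime_iff_coprime.mpr h3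
  have h4 : ((a : ℤ) : 𝓞 k) * ((p : ℕ) : 𝓞 k) + ((b : ℤ) : 𝓞 k) * ((q : ℕ) : 𝓞 k) = 1 := by
    have := congrArg (fun n : ℤ => (n : 𝓞 k)) hab
    push_cast at this
    exact this
  apply (f p).isPrime.ne_top
  rw [Ideal.eq_top_iff_one, ← h4]
  exact Ideal.add_mem _ (Ideal.mul_mem_left _ _ h1) (Ideal.mul_mem_left _ _ h2)

lemma count_ge (M : ℕ) :
    ∀ᶠ x in atTop, (M : ℝ) ≤ count (Set.univ : Set (HeightOneSpectrum (𝓞 k))) x := by
  have := inf_places k
  obtain ⟨s, hs⟩ := Infinite.exists_subset_card_eq (HeightOneSpectrum (𝓞 k)) M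
  obtain ⟨B, hB⟩ := (s.finite_toSet.image fun v => (Ideal.absNorm v.asIdeal : ℝ)).bddAbove
  filter_upwards [eventually_ge_atTop B] with x hx
  have h : (s : Set (HeightOneSpectrum (𝓞 k))).ncard ≤
      {v ∈ (Set.univ : Set (HeightOneSpectrum (𝓞 k))) |
        (Ideal.absNorm v.asIdeal : ℝ) ≤ x}.ncard :=
    Set.ncard_le_ncard (fun v hv => ⟨trivial, (hB ⟨v, hv, rfl⟩).trans hx⟩) (fin_count _ x)
  rw [Set.ncard_coe_finset, hs] at h
  unfold count
  exact_mod_cast h

/-- Positive lower density is a notion of large sets. -/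
theorem largeness_posDensity :
    IsLargeness (PosDensity : Set (HeightOneSpectrum (𝓞 k)) → Prop) := by
  rintro S S' h ⟨c, hc, hS⟩
  refine ⟨c / 2, by positivity, ?_⟩
  have hF : (S \ S').Finite := h
  obtain ⟨M, hM⟩ := exists_nat_ge (2 * ((S \ S').ncard : ℝ) / c)
  filter_upwards [hS, count_ge (k := k) M] with x h1 h2
  have h3 : count S x ≤ count S' x + (S \ S').ncard := by
    unfold count
    norm_cast
    refine (Set.ncard_le_ncard ?_ ((fin_count S' x).union hF)).trans (Set.ncard_union_le _ _)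
    rintro v ⟨hv, hx⟩
    by_cases h : v ∈ S'
    · exact Or.inl ⟨h, hx⟩
    · exact Or.inr ⟨hv, h⟩
  have h4 : 2 * ((S \ S').ncard : ℝ) ≤
      c * count (Set.univ : Set (HeightOneSpectrum (𝓞 k))) x := by
    have h5 := hM.trans h2
    rw [div_le_iff₀ hc] at h5
    linarith
  linarith

end Pool.Agent.Y101.Ds
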