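import Pool.Agent.Y101.Ds.OrdDefs

/-!
# Ordinary primes for intersection cohomology: definitions
-/

set_option autoImplicit false

open CategoryTheory AlgebraicGeometry

namespace Pool.Agent.Y101.Ds

open Pool.Agent.Y116.UV Pool.Agent.Y101.Th

attribute [local instance] MvPolynomial.gradedAlgebra

/-- `X` is projective over `k`: isomorphic to a closed subscheme of a projective space. -/
def IsProjective {k : Type} [Field k] (X : Sch k) : Prop :=
  ∃ (N : ℕ) (i : X.left ⟶ Proj (MvPolynomial.homogeneousSubmodule (Fin (N + 1)) k)),
    IsClosedImmersion i ∧ i ≫ prS k N = X.hom

/-- Known properties of the sets `I X n ⊆ V` of the places `v` at which the intersection cohomology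
`IH^n(X)` of the projective scheme `X` over the number field `k` (the direct sum over its irreducible
components) is ordinary, that is, the Newton polygon (that of the `ℓ`-adic representations for `v ∤ ℓ`,
and for almost all `v` also that of the crystalline `p`-adic one for `v ∣ p`) is the Hodge-Tate
polygon, and of the sets `O X` of the places at which all `gr^W_w H^j_c(X)` are ordinary, up to
finitely many places:

* `resolution`: for `X` projective there is a smooth projective `Y` of dimension at most `dim X` such
  that `IH^n(X)` is ordinary where `Y` is ordinary (`Y` is the disjoint union of resolutions of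
  singularities of the irreducible components of `X`: by the decomposition theorem `IH^n(X)` is a
  direct summand of `H^n(Y)`);
* `single`: for `X` smooth and projective there are a smooth projective `Z` and an `m` such that `X` is
  ordinary where `IH^m(Z) = H^m(Z)` is ordinary (`Z = X × E × ℙ^N` with an elliptic curve `E`, large
  `N` and large even `m`: all `H^i(X)`, up to Tate twists, or `H^i(X) ⊗ H^1(E)` are direct summands
  of `H^m(Z)`). -/
structure IsIntersection {k V : Type} [Field k] (O : Sch k → Set V) (I : Sch k → ℤ → Set V) :
    Prop where
  resolution : ∀ X : Sch k, IsProjective X → ∃ Y : Sch k, SmProj Y ∧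
    topologicalKrullDim Y.left ≤ topologicalKrullDim X.left ∧ ∀ n, AlmostSub (O Y) (I X n)
  single : ∀ X : Sch k, SmProj X → ∃ (Z : Sch k) (m : ℤ), SmProj Z ∧ AlmostSub (I Z m) (O X)

end Pool.Agent.Y101.Ds
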