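import Pool.Agent.Y101.Ds.Defs
import Pool.Agent.Y101.Th.RMain
import Pool.Agent.Z125.UN.Dim2

/-!
# Smooth affine schemes and the hypersurfaces `∑ w_i q_i(y, z) = 1`
-/

set_option autoImplicit false

open CategoryTheory AlgebraicGeometry MvPolynomial

namespace Pool.Agent.Y101.Ds

open Pool.Agent.Y116.UV Pool.Agent.Y101.Th Pool.Agent.Z125.UN

section smooth

variable {A : Type} [CommRing A] {m : ℕ} (f : Fin m → A)

/-- The affine bundle `∑ f_l w_l = 1` is smooth over the base. -/
theorem jou_smooth : Algebra.Smooth A (Jou f) where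
  formallySmooth := by
    apply Algebra.FormallySmooth.of_comp_surjective
    intro B _ _ I hI g
    have hsur : Function.Surjective (Ideal.Quotient.mkₐ A I) := Ideal.Quotient.mkₐ_surjective A I
    choose v hv using fun s => hsur (g (Ideal.Quotient.mk _ (X s)))
    have h1 : (Ideal.Quotient.mkₐ A I).comp (aeval v) =
        g.comp (Ideal.Quotient.mkₐ A (Ideal.span {∑ l, C (f l) * X l - 1})) := by
      apply MvPolynomial.algHom_ext
      intro s
      change Ideal.Quotient.mkₐ A I (aeval v (X s)) = _
      rw [aeval_X]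
      exact hv s
    have h2 : Ideal.Quotient.mkₐ A I (aeval v (∑ l, C (f l) * X l) - 1) = 0 := by
      have h3 := congrArg (fun φ : MvPolynomial (Fin m) A →ₐ[A] B ⧸ I =>
        φ (∑ l, C (f l) * X l - 1)) h1
      change Ideal.Quotient.mkₐ A I (aeval v (∑ l, C (f l) * X l - 1)) =
        g (Ideal.Quotient.mk _ (∑ l, C (f l) * X l - 1)) at h3
      rw [Ideal.Quotient.eq_zero_iff_mem.mpr (Ideal.mem_span_singleton_self _), map_zero, map_sub,
        map_one] at h3
      exact h3
    have h4 : aeval v (∑ l, C (f l) * X l) - 1 ∈ I := Ideal.Quotient.eq_zero_iff_mem.mp h2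
    let d : B := aeval v (∑ l, C (f l) * X l) - 1
    have h5 : d * d = 0 := by
      have : d * d ∈ I ^ 2 := by
        rw [pow_two]
        exact Ideal.mul_mem_mul h4 h4
      rw [hI] at this
      exact this
    have hval : ∀ w : Fin m → B, aeval w (∑ l, C (f l) * X l) = ∑ l, algebraMap A B (f l) * w l := by
      intro w
      simp only [map_sum, map_mul, aeval_X, algHom_C]
    let w : Fin m → B := fun i => (1 - d) * v i
    have h6 : aeval w (∑ l, C (f l) * X l) = 1 := by
      have h7 : aeval w (∑ l, C (f l) * X l) = (1 - d) * aeval v (∑ l, C (f l) * X l) := by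
        rw [hval, hval, Finset.mul_sum]
        apply Finset.sum_congr rfl
        intro i _
        change _ * ((1 - d) * v i) = _
        ring
      have h8 : aeval v (∑ l, C (f l) * X l) = 1 + d := by
        change _ = 1 + (aeval v (∑ l, C (f l) * X l) - 1)
        ring
      rw [h7, h8]
      linear_combination -h5
    refine ⟨Ideal.Quotient.liftₐ _ (aeval w) ?_, ?_⟩
    · intro p hp
      have h9 : Ideal.span {∑ l, C (f l) * X l - 1} ≤
          RingHom.ker (aeval w : MvPolynomial (Fin m) A →ₐ[A] B) := by
        rw [Ideal.span_le, Set.singleton_subset_iff]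
        change aeval w (∑ l, C (f l) * X l - 1) = 0
        rw [map_sub, h6, map_one, sub_self]
      exact h9 hp
    · have hd : Ideal.Quotient.mkₐ A I d = 0 := h2
      apply Ideal.Quotient.algHom_ext
      apply MvPolynomial.algHom_ext
      intro i
      change Ideal.Quotient.mkₐ A I (aeval w (X i)) = g (Ideal.Quotient.mk _ (X i))
      rw [aeval_X]
      change Ideal.Quotient.mkₐ A I ((1 - d) * v i) = _
      rw [map_mul, map_sub, hd, map_one, sub_zero, one_mul]
      exact hv _
  finitePresentation :=
    Algebra.FinitePresentation.quotient ⟨{∑ l, C (f l) * X l - 1}, by rw [Finset.coe_singleton]⟩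

end smooth

section sumS

variable {k : Type} [Field k] {a b c : ℕ} (t : Fin a → Option (Fin b) → Option (Fin c) → k)

lemma smooth_sum : Algebra.Smooth k (Jou fun i => biaff (t i)) := by
  have h1 := jou_smooth fun i => biaff (t i)
  have h0 : Algebra.Smooth k (MvPolynomial (Fin b ⊕ Fin c) k) := ⟨inferInstance, inferInstance⟩
  exact Algebra.Smooth.comp k (MvPolynomial (Fin b ⊕ Fin c) k) _

lemma smooth_sumS : Smooth (sumS t).hom := smooth_aff (smooth_sum t)

lemma ft_sumS : FT True (sumS t) := by
  have := smooth_sum t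
  exact ft_aff True

end sumS

section present

variable {k : Type} [CommRing k] {S : Set k} {n : ℕ}

lemma aff1_eval {B : Type} [CommRing B] [Algebra k B] (φ : MvPolynomial (Fin n) k →ₐ[k] B)
    (v : Option (Fin n) → k) :
    φ (aff1 v) = ∑ l : Option (Fin n), algebraMap k B (v l) * l.elim 1 fun l => φ (X l) := by
  rw [aff1, Fintype.sum_option, map_add, map_sum]
  simp only [Option.elim_none, Option.elim_some, mul_one, map_mul]
  rw [hom_C φ]
  congr 1
  apply Finset.sum_congr rfl
  intro i _
  rw [hom_C φ]

lemma biaff_eval {b : ℕ} {B : Type} [CommRing B] [Algebra k B]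
    (Φ : MvPolynomial (Fin b ⊕ Fin n) k →ₐ[k] B) (t : Option (Fin b) → Option (Fin n) → k) :
    Φ (biaff t) = ∑ j : Option (Fin b), (Φ.comp (rename Sum.inr)) (aff1 (t j)) *
      j.elim 1 fun j => Φ (X (Sum.inl j)) := by
  rw [biaff, map_sum]
  apply Finset.sum_congr rfl
  intro j _
  rw [map_sum, aff1_eval, Finset.sum_mul]
  apply Finset.sum_congr rfl
  intro l _
  rw [map_mul, map_mul, hom_C Φ]
  have h1 : Φ (l.elim 1 fun l => X (Sum.inr l)) =
      l.elim 1 fun l => (Φ.comp (rename Sum.inr)) (X l) := by
    rcases l with _ | l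
    · exact map_one Φ
    · change Φ (X (Sum.inr l)) = Φ (rename Sum.inr (X l))
      rw [rename_X]
  have h2 : Φ (j.elim 1 fun j => X (Sum.inl j)) = j.elim 1 fun j => Φ (X (Sum.inl j)) := by
    rcases j with _ | j
    · exact map_one Φ
    · rfl
  rw [h1, h2]
  ring

end present

end Pool.Agent.Y101.Ds
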