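import Pool.Agent.Y116.UV.Defs

/-!
# The hypersurfaces `∑ w_i q_i(y, z) = 1`: definitions
-/

set_option autoImplicit false

open CategoryTheory AlgebraicGeometry MvPolynomial

namespace Pool.Agent.Y101.Ds

open Pool.Agent.Y116.UV

/-- The polynomial `∑ t_jl y_j z_l` in the variables `y`, `z`, where `y_none = z_none = 1`: a
polynomial of degree at most one in the `y` and of degree at most one in the `z`. -/
noncomputable def biaff {k : Type} [CommRing k] {β γ : Type} [Fintype β] [Fintype γ]
    (t : Option β → Option γ → k) : MvPolynomial (β ⊕ γ) k :=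
  ∑ j : Option β, ∑ l : Option γ,
    C (t j l) * (j.elim 1 fun j => X (Sum.inl j)) * (l.elim 1 fun l => X (Sum.inr l))

/-- The closed subscheme `f = 0` of the affine space with the coordinates `σ`. -/
noncomputable def zeroS {k : Type} [CommRing k] {σ : Type} {m : ℕ}
    (f : Fin m → MvPolynomial σ k) : Sch k :=
  aff k (MvPolynomial σ k ⧸ Ideal.span (Set.range f))

/-- The hypersurface `∑_i w_i f_i = 1`, an affine bundle over the complement of `f = 0`. -/
noncomputable def bundleS {k : Type} [CommRing k] {σ : Type} {m : ℕ}
    (f : Fin m → MvPolynomial σ k) : Sch k :=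
  aff k (Jou f)

/-- The smooth affine hypersurface `∑_i w_i q_i(y, z) = 1` in the space with the coordinates `w`, `y`,
`z`, where `q_i` is the polynomial `∑ t_ijl y_j z_l`, `y_none = z_none = 1`. -/
noncomputable def sumS {k : Type} [CommRing k] {a b c : ℕ}
    (t : Fin a → Option (Fin b) → Option (Fin c) → k) : Sch k :=
  bundleS fun i => biaff (t i)

end Pool.Agent.Y101.Ds
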