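import Pool.Agent.Y101.Ds.Alg

/-!
# Presentations by polynomials `q_i(y, z)`
-/

set_option autoImplicit false

open CategoryTheory AlgebraicGeometry MvPolynomial

namespace Pool.Agent.Y101.Ds

open Pool.Agent.Y116.UV Pool.Agent.Y101.Th Pool.Agent.Z125.UN

section iso

variable {k : Type} [CommRing k] {S : Set k} {n a b : ℕ} (s : Sy S n)
  (G : Finset (MvPolynomial (Fin n) k)) (e : G → s.β) (eβ : s.β ≃ Fin b) (eκ : Fin a ≃ s.κ ⊕ G)

/-- the coefficients for finite index types -/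
noncomputable def cf (i : Fin a) (j : Option (Fin b)) (l : Option (Fin n)) : k :=
  open Classical in
  Sum.elim (fun k' => s.T k' (j.map eβ.symm) l)
    (fun g => if j = some (eβ (e g)) ∧ l = none then 1 else 0) (eκ i)

lemma cf_mem (h0 : (0 : k) ∈ S) (h1 : (1 : k) ∈ S) (i : Fin a) (j : Option (Fin b))
    (l : Option (Fin n)) : cf s G e eβ eκ i j l ∈ S := by
  classical
  unfold cf
  rcases eκ i with k' | g
  · exact s.mem _ _ _
  · change (if j = some (eβ (e g)) ∧ l = none then (1 : k) else 0) ∈ S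
    split_ifs
    · exact h1
    · exact h0

variable {B : Type} [CommRing B] [Algebra k B] (Φ : MvPolynomial (Fin b ⊕ Fin n) k →ₐ[k] B)

lemma ev_inl {i : Fin a} {k' : s.κ} (h : eκ i = Sum.inl k') :
    Φ (biaff (cf s G e eβ eκ i)) = ∑ j : Option s.β,
      (Φ.comp (rename Sum.inr)) (aff1 (s.T k' j)) * j.elim 1 fun j => Φ (X (Sum.inl (eβ j))) := by
  rw [biaff_eval]
  refine (Fintype.sum_equiv (Equiv.optionCongr eβ) _ _ ?_).symm
  intro j
  have h1 : cf s G e eβ eκ i (Equiv.optionCongr eβ j) = s.T k' j := by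
    funext l
    rw [cf, h]
    rcases j with _ | j
    · rfl
    · simp
  rw [h1]
  rcases j with _ | j
  · rfl
  · rfl

lemma ev_inr {i : Fin a} {g : G} (h : eκ i = Sum.inr g) :
    Φ (biaff (cf s G e eβ eκ i)) = Φ (X (Sum.inl (eβ (e g)))) := by
  classical
  rw [biaff_eval, Finset.sum_eq_single (some (eβ (e g)))]
  · have h1 : cf s G e eβ eκ i (some (eβ (e g))) = fun l => if l = none then (1 : k) else 0 := by
      funext l
      rw [cf, h]
      simp
    have h2 : aff1 (fun l : Option (Fin n) => if l = none then (1 : k) else 0) = 1 := by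
      simp [aff1]
    rw [h1, h2, map_one, one_mul]
    rfl
  · intro j _ hj
    have h1 : cf s G e eβ eκ i j = fun _ => (0 : k) := by
      funext l
      rw [cf, h]
      simp [hj]
    rw [h1, aff1_zero, map_zero, zero_mul]
  · intro h
    exact absurd (Finset.mem_univ _) h

/-- the ideal of the polynomials `q_i` -/
noncomputable abbrev qI : Ideal (MvPolynomial (Fin b ⊕ Fin n) k) :=
  Ideal.span (Set.range fun i => biaff (cf s G e eβ eκ i))

lemma q_zero (i : Fin a) : Ideal.Quotient.mkₐ k (qI s G e eβ eκ) (biaff (cf s G e eβ eκ i)) = 0 :=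
  Ideal.Quotient.eq_zero_iff_mem.mpr (Ideal.subset_span ⟨i, rfl⟩)

lemma y_val (j : s.β) : Ideal.Quotient.mkₐ k (qI s G e eβ eκ) (X (Sum.inl (eβ j))) =
    Ideal.Quotient.mkₐ k (qI s G e eβ eκ) (rename Sum.inr (s.F j)) := by
  have h := (s.sol _ ((Ideal.Quotient.mkₐ k (qI s G e eβ eκ)).comp (rename Sum.inr))
    (fun j => j.elim 1 fun j => Ideal.Quotient.mkₐ k (qI s G e eβ eκ) (X (Sum.inl (eβ j))))).mp
    (fun k' => by
      rw [← ev_inl s G e eβ eκ (Ideal.Quotient.mkₐ k (qI s G e eβ eκ))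
        (i := eκ.symm (Sum.inl k')) (k' := k') (by simp)]
      exact q_zero s G e eβ eκ _) j
  change Ideal.Quotient.mkₐ k (qI s G e eβ eκ) (X (Sum.inl (eβ j))) =
    Ideal.Quotient.mkₐ k (qI s G e eβ eκ) (rename Sum.inr (s.F j)) * 1 at h
  rw [mul_one] at h
  exact h

/-- the values of the `y` -/
noncomputable def P0 : MvPolynomial (Fin b ⊕ Fin n) k →ₐ[k] MvPolynomial (Fin n) k :=
  aeval (Sum.elim (fun j => s.F (eβ.symm j)) X)

lemma P0_inl (j : s.β) : P0 s eβ (X (Sum.inl (eβ j))) = s.F j := by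
  rw [P0, aeval_X]
  simp

lemma P0_rename : (P0 s eβ).comp (rename Sum.inr) = AlgHom.id k _ := by
  apply MvPolynomial.algHom_ext
  intro i
  change P0 s eβ (rename Sum.inr (X i)) = X i
  rw [rename_X, P0, aeval_X]
  rfl

include s e in
theorem present_iso (he : ∀ g, s.F (e g) = g.1) :
    Nonempty ((MvPolynomial (Fin b ⊕ Fin n) k ⧸ qI s G e eβ eκ) ≃ₐ[k]
      (MvPolynomial (Fin n) k ⧸ Ideal.span (G : Set (MvPolynomial (Fin n) k)))) := by
  let K : Ideal (MvPolynomial (Fin n) k) := Ideal.span (G : Set (MvPolynomial (Fin n) k))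
  have hφ : ∀ x ∈ qI s G e eβ eκ, ((Ideal.Quotient.mkₐ k K).comp (P0 s eβ)) x = 0 := by
    have h1 : qI s G e eβ eκ ≤ RingHom.ker ((Ideal.Quotient.mkₐ k K).comp (P0 s eβ)) := by
      rw [Ideal.span_le]
      rintro _ ⟨i, rfl⟩
      change Ideal.Quotient.mkₐ k K (P0 s eβ (biaff (cf s G e eβ eκ i))) = 0
      rcases h : eκ i with k' | g
      · rw [ev_inl s G e eβ eκ (P0 s eβ) h, P0_rename]
        have h2 := (s.sol _ (AlgHom.id k (MvPolynomial (Fin n) k))
          (fun j => j.elim 1 fun j => P0 s eβ (X (Sum.inl (eβ j))))).mpr (by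
            intro j
            change P0 s eβ (X (Sum.inl (eβ j))) = s.F j * 1
            rw [P0_inl, mul_one]) k'
        rw [h2, map_zero]
      · rw [ev_inr s G e eβ eκ (P0 s eβ) h, P0_inl, he]
        exact Ideal.Quotient.eq_zero_iff_mem.mpr (Ideal.subset_span g.2)
    exact fun x hx => h1 hx
  have hψ : ∀ x ∈ K, ((Ideal.Quotient.mkₐ k (qI s G e eβ eκ)).comp (rename Sum.inr)) x = 0 := by
    have h1 : K ≤ RingHom.ker ((Ideal.Quotient.mkₐ k (qI s G e eβ eκ)).comp
        (rename (Sum.inr : Fin n → Fin b ⊕ Fin n))) := by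
      rw [Ideal.span_le]
      intro g hg
      change Ideal.Quotient.mkₐ k (qI s G e eβ eκ) (rename Sum.inr g) = 0
      have h2 := y_val s G e eβ eκ (e ⟨g, hg⟩)
      rw [he] at h2
      rw [← h2, ← ev_inr s G e eβ eκ (Ideal.Quotient.mkₐ k (qI s G e eβ eκ))
        (i := eκ.symm (Sum.inr ⟨g, hg⟩)) (by simp)]
      exact q_zero s G e eβ eκ _
    exact fun x hx => h1 hx
  refine ⟨AlgEquiv.ofAlgHom (Ideal.Quotient.liftₐ _ _ hφ) (Ideal.Quotient.liftₐ _ _ hψ) ?_ ?_⟩
  · apply Ideal.Quotient.algHom_ext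
    apply MvPolynomial.algHom_ext
    intro i
    change Ideal.Quotient.mkₐ k K (P0 s eβ (rename Sum.inr (X i))) = Ideal.Quotient.mkₐ k K (X i)
    have h := congrArg (fun f : MvPolynomial (Fin n) k →ₐ[k] MvPolynomial (Fin n) k => f (X i))
      (P0_rename s eβ)
    exact congrArg _ h
  · apply Ideal.Quotient.algHom_ext
    apply MvPolynomial.algHom_ext
    rintro (j | i)
    · change Ideal.Quotient.mkₐ k (qI s G e eβ eκ) (rename Sum.inr (P0 s eβ (X (Sum.inl j)))) =
        Ideal.Quotient.mkₐ k (qI s G e eβ eκ) (X (Sum.inl j))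
      have h := P0_inl s eβ (eβ.symm j)
      rw [Equiv.apply_symm_apply] at h
      rw [h, ← y_val, Equiv.apply_symm_apply]
    · change Ideal.Quotient.mkₐ k (qI s G e eβ eκ) (rename Sum.inr (P0 s eβ (X (Sum.inr i)))) =
        Ideal.Quotient.mkₐ k (qI s G e eβ eκ) (X (Sum.inr i))
      rw [P0, aeval_X]
      change Ideal.Quotient.mkₐ k (qI s G e eβ eκ) (rename Sum.inr (X i)) = _
      rw [rename_X]

end iso

end Pool.Agent.Y101.Ds
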