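import Pool.Agent.Y101.Ds.Iso

/-!
# All smooth schemes and the hypersurfaces `∑ w_i q_i(y, z) = 1`
-/

set_option autoImplicit false

open CategoryTheory AlgebraicGeometry MvPolynomial

namespace Pool.Agent.Y101.Ds

open Pool.Agent.Y116.UV Pool.Agent.Y101.Th Pool.Agent.Z125.UN

variable {k : Type} [Field k] {P : Sch k → Prop}

/-- The conditions on a property of smooth schemes. -/
structure Dsp (P : Sch k → Prop) : Prop where
  iso : ∀ {X Y : Sch k}, FT True X → Smooth X.hom → Nonempty (X ≅ Y) → P X → P Y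
  gysin : ∀ (σ : Type) [Finite σ] (m : ℕ) (f : Fin m → MvPolynomial σ k), (∃ l, f l ≠ 0) →
    Smooth (zeroS f).hom → P (bundleS f) → P (zeroS f)
  cover : (∀ (A : Type) [CommRing A] [Algebra k A], Algebra.Smooth k A → P (aff k A)) →
    ∀ X : Sch k, FT True X → Smooth X.hom → P X

lemma Dsp.alg (hP : Dsp P) {A B : Type} [CommRing A] [CommRing B] [Algebra k A] [Algebra k B]
    (hA : Algebra.Smooth k A) (e : A ≃ₐ[k] B) (h : P (aff k A)) : P (aff k B) :=
  hP.iso (ft_aff True) (smooth_aff hA) ⟨affIso e.symm⟩ h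

/-- Smooth closed subschemes of affine spaces. -/
theorem closed_of_sum (hP : Dsp P) {S : Set k} (h0 : (0 : k) ∈ S) (h1 : (1 : k) ∈ S) {n : ℕ}
    (G : Finset (MvPolynomial (Fin n) k)) (hHas : ∀ p ∈ G, Has S p) (hG : G.Nonempty)
    (hsm : Algebra.Smooth k (MvPolynomial (Fin n) k ⧸
      Ideal.span (G : Set (MvPolynomial (Fin n) k))))
    (h : ∀ (a b : ℕ) (t : Fin a → Option (Fin b) → Option (Fin n) → k), (∀ i j l, t i j l ∈ S) →
      P (sumS t)) :
    P (aff k (MvPolynomial (Fin n) k ⧸ Ideal.span (G : Set (MvPolynomial (Fin n) k)))) := by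
  classical
  obtain ⟨s, hs⟩ := RX.exists_sys' h0 G hHas
  have hs' : ∀ g : G, ∃ e, s.F e = g.1 := fun g => hs g.1 g.2
  choose e he using hs'
  let eβ : s.β ≃ Fin (Fintype.card s.β) := Fintype.equivFin s.β
  let eκ : Fin (Fintype.card (s.κ ⊕ G)) ≃ s.κ ⊕ G := (Fintype.equivFin (s.κ ⊕ G)).symm
  obtain ⟨E⟩ := present_iso s G e eβ eκ he
  have hsm' : Algebra.Smooth k (MvPolynomial (Fin (Fintype.card s.β) ⊕ Fin n) k ⧸
      qI s G e eβ eκ) := Algebra.Smooth.of_equiv E.symm
  refine hP.alg hsm' E (hP.gysin _ _ (fun i => biaff (cf s G e eβ eκ i)) ?_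
    (smooth_aff hsm') ?_)
  · obtain ⟨g, hg⟩ := hG
    refine ⟨eκ.symm (Sum.inr ⟨g, hg⟩), ?_⟩
    have h2 := ev_inr s G e eβ eκ (AlgHom.id k _) (i := eκ.symm (Sum.inr ⟨g, hg⟩))
      (g := ⟨g, hg⟩) (by simp)
    change biaff (cf s G e eβ eκ (eκ.symm (Sum.inr ⟨g, hg⟩))) =
      X (Sum.inl (eβ (e ⟨g, hg⟩))) at h2
    rw [h2]
    exact X_ne_zero _
  · exact h _ _ (cf s G e eβ eκ) (cf_mem s G e eβ eκ h0 h1)

theorem closed_univ (hP : Dsp P) {n : ℕ}
    (h : ∀ (a b : ℕ) (t : Fin a → Option (Fin b) → Option (Fin n) → k), P (sumS t))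
    (I : Ideal (MvPolynomial (Fin n) k)) (hsm : Algebra.Smooth k (MvPolynomial (Fin n) k ⧸ I)) :
    P (aff k (MvPolynomial (Fin n) k ⧸ I)) := by
  classical
  obtain ⟨G0, rfl⟩ := (isNoetherianRing_iff_ideal_fg _).mp
    (inferInstance : IsNoetherianRing (MvPolynomial (Fin n) k)) I
  have hK : Ideal.span (G0 : Set (MvPolynomial (Fin n) k)) =
      Ideal.span ((insert 0 G0 : Finset (MvPolynomial (Fin n) k)) :
        Set (MvPolynomial (Fin n) k)) := by
    rw [Finset.coe_insert, Ideal.span_insert_zero]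
  rw [hK] at hsm ⊢
  exact closed_of_sum hP (S := Set.univ) trivial trivial _
    (fun p _ => has_all (S := Set.univ) trivial trivial has_const p) (Finset.insert_nonempty _ _) hsm
    fun a b t _ => h a b t

theorem closed_frac (hk : IsFrac k) (hP : Dsp P) {S : Set k} (h0 : (0 : k) ∈ S)
    (h1 : (1 : k) ∈ S) {n : ℕ}
    (h : ∀ (a b : ℕ) (t : Fin a → Option (Fin b) → Option (Fin n) → k), (∀ i j l, t i j l ∈ S) →
      P (sumS t))
    (I : Ideal (MvPolynomial (Fin n) k)) (hsm : Algebra.Smooth k (MvPolynomial (Fin n) k ⧸ I)) :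
    P (aff k (MvPolynomial (Fin n) k ⧸ I)) := by
  classical
  obtain ⟨G0, rfl⟩ := (isNoetherianRing_iff_ideal_fg _).mp
    (inferInstance : IsNoetherianRing (MvPolynomial (Fin n) k)) I
  choose u hu w0 hw0 using fun g : MvPolynomial (Fin n) k => frac_scale hk g
  let G : Finset (MvPolynomial (Fin n) k) := insert 0 (G0.image fun g => C (u g) * g)
  have hK : Ideal.span (G0 : Set (MvPolynomial (Fin n) k)) =
      Ideal.span (G : Set (MvPolynomial (Fin n) k)) := by
    rw [Finset.coe_insert, Ideal.span_insert_zero]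
    apply le_antisymm
    · rw [Ideal.span_le]
      intro g hg
      obtain ⟨v, hv⟩ := (hu g).exists_left_inv
      have h1 : g = C v * (C (u g) * g) := by
        rw [← mul_assoc, ← C_mul, hv, C_1, one_mul]
      have h2 : C (u g) * g ∈ Ideal.span ((G0.image fun g => C (u g) * g :
          Finset (MvPolynomial (Fin n) k)) : Set (MvPolynomial (Fin n) k)) :=
        Ideal.subset_span (Finset.mem_coe.mpr (Finset.mem_image_of_mem _ hg))
      have h3 := Ideal.mul_mem_left _ (C v) h2
      rw [← h1] at h3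
      exact h3
    · rw [Ideal.span_le]
      intro g hg
      obtain ⟨g', hg', rfl⟩ := Finset.mem_image.mp (Finset.mem_coe.mp hg)
      exact Ideal.mul_mem_left _ _ (Ideal.subset_span hg')
  rw [hK] at hsm ⊢
  refine closed_of_sum hP h0 h1 G (fun p hp => RX.has_coeff h0 h1 p fun m => ?_)
    (Finset.insert_nonempty _ _) hsm h
  rcases Finset.mem_insert.mp hp with rfl | hp
  · exact ⟨0, by simp⟩
  · obtain ⟨g', hg', rfl⟩ := Finset.mem_image.mp hp
    exact ⟨w0 g' m, hw0 g' m⟩

/-- Smooth affine schemes are closed subschemes of affine spaces. -/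
theorem affine_of_closed (hP : Dsp P) (h : ∀ (n : ℕ) (I : Ideal (MvPolynomial (Fin n) k)),
    Algebra.Smooth k (MvPolynomial (Fin n) k ⧸ I) → P (aff k (MvPolynomial (Fin n) k ⧸ I)))
    (A : Type) [CommRing A] [Algebra k A] (hA : Algebra.Smooth k A) : P (aff k A) := by
  obtain ⟨n, f, hf⟩ := Algebra.FiniteType.iff_quotient_mvPolynomial''.mp
    (inferInstance : Algebra.FiniteType k A)
  have e := Ideal.quotientKerAlgEquivOfSurjective hf
  have h1 : Algebra.Smooth k (MvPolynomial (Fin n) k ⧸ RingHom.ker f) :=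
    Algebra.Smooth.of_equiv e.symm
  exact hP.alg h1 e (h n _ h1)

/-- All smooth schemes. -/
theorem ds_all (hP : Dsp P) : (∀ X : Sch k, FT True X → Smooth X.hom → P X) ↔
    ∀ (a b c : ℕ) (t : Fin a → Option (Fin b) → Option (Fin c) → k), P (sumS t) := by
  constructor
  · intro h a b c t
    exact h _ (ft_sumS t) (smooth_sumS t)
  · intro h
    exact hP.cover fun A _ _ hA => affine_of_closed hP
      (fun n I hI => closed_univ hP (fun a b t => h a b n t) I hI) A hA

/-- Coefficients zero and one over a field of fractions of integers. -/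
theorem ds_frac (hk : IsFrac k) (hP : Dsp P) : (∀ X : Sch k, FT True X → Smooth X.hom → P X) ↔
    ∀ (a b c : ℕ) (t : Fin a → Option (Fin b) → Option (Fin c) → k),
      (∀ i j l, t i j l = 0 ∨ t i j l = 1) → P (sumS t) := by
  constructor
  · intro h a b c t _
    exact h _ (ft_sumS t) (smooth_sumS t)
  · intro h
    exact hP.cover fun A _ _ hA => affine_of_closed hP
      (fun n I hI => closed_frac hk hP (S := {0, 1}) (Or.inl rfl) (Or.inr rfl)
        (fun a b t ht => h a b n t ht) I hI) A hA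

end Pool.Agent.Y101.Ds
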