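import Pool.Agent.Y101.Ds.OrdDefs
import Pool.Agent.Y691.TU.Frac

/-!
# Sets of places of ordinary reduction
-/

set_option autoImplicit false

open CategoryTheory AlgebraicGeometry MvPolynomial

namespace Pool.Agent.Y101.Ds

open Pool.Agent.Y116.UV Pool.Agent.Y101.Th Pool.Agent.Z125.UN

section sets

variable {V : Type}

lemma AlmostSub.refl (S : Set V) : AlmostSub S S := by
  unfold AlmostSub
  rw [sdiff_self]
  exact Set.finite_empty

lemma AlmostSub.of_sub {S S' : Set V} (h : S ⊆ S') : AlmostSub S S' := by
  unfold AlmostSub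
  rw [Set.diff_eq_empty.mpr h]
  exact Set.finite_empty

lemma AlmostSub.trans {S S' S'' : Set V} (h1 : AlmostSub S S') (h2 : AlmostSub S' S'') :
    AlmostSub S S'' := by
  refine (Set.Finite.union h1 h2).subset ?_
  rintro v ⟨hv, hv'⟩
  by_cases h : v ∈ S'
  · exact Or.inr ⟨h, hv'⟩
  · exact Or.inl ⟨hv, h⟩

lemma AlmostSub.inter {S A B : Set V} (h1 : AlmostSub S A) (h2 : AlmostSub S B) :
    AlmostSub S (A ∩ B) := by
  refine (Set.Finite.union h1 h2).subset ?_
  rintro v ⟨hv, hv'⟩
  by_cases h : v ∈ A
  · exact Or.inr ⟨hv, fun hB => hv' ⟨h, hB⟩⟩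
  · exact Or.inl ⟨hv, h⟩

end sets

section

variable {k V : Type} [Field k] {O : Sch k → Set V} {G G' : Sch k → Prop}

/-- The set of the places at which all schemes of the list are ordinary. -/
def common (O : Sch k → Set V) (l : List (Sch k)) : Set V := {v | ∀ Y ∈ l, v ∈ O Y}

lemma common_append (l l' : List (Sch k)) :
    common O (l ++ l') = common O l ∩ common O l' := by
  ext v
  constructor
  · intro h
    exact ⟨fun Y hY => h Y (List.mem_append_left _ hY), fun Y hY =>
      h Y (List.mem_append_right _ hY)⟩
  · rintro ⟨h1, h2⟩ Y hY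
    rcases List.mem_append.mp hY with h | h
    · exact h1 Y h
    · exact h2 Y h

/-- `X` is ordinary where finitely many schemes with the property `G` are ordinary. -/
def Controlled (O : Sch k → Set V) (G : Sch k → Prop) (X : Sch k) : Prop :=
  ∃ l : List (Sch k), (∀ Y ∈ l, G Y) ∧ AlmostSub (common O l) (O X)

lemma controlled_self {X : Sch k} (h : G X) : Controlled O G X := by
  refine ⟨[X], fun Y hY => ?_, AlmostSub.of_sub fun v hv => hv X (List.mem_singleton_self X)⟩
  rw [List.mem_singleton.mp hY]
  exact h

lemma controlled_sub {X Y : Sch k} (hX : Controlled O G X) (h : AlmostSub (O X) (O Y)) :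
    Controlled O G Y := by
  obtain ⟨l, hl, hs⟩ := hX
  exact ⟨l, hl, hs.trans h⟩

lemma controlled_two {X Y Z : Sch k} (hX : Controlled O G X) (hY : Controlled O G Y)
    (h : AlmostSub (O X ∩ O Y) (O Z)) : Controlled O G Z := by
  obtain ⟨l, hl, hs⟩ := hX
  obtain ⟨l', hl', hs'⟩ := hY
  refine ⟨l ++ l', fun W hW => ?_, ?_⟩
  · rcases List.mem_append.mp hW with h | h
    · exact hl W h
    · exact hl' W h
  · rw [common_append]
    refine AlmostSub.trans (AlmostSub.inter ?_ ?_) h
    · exact (AlmostSub.of_sub Set.inter_subset_left).trans hs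
    · exact (AlmostSub.of_sub Set.inter_subset_right).trans hs'

lemma controlled_point (hO : IsOrdinary O) : Controlled O G (aff k k) :=
  ⟨[], fun Y hY => absurd hY List.not_mem_nil, (AlmostSub.of_sub (Set.subset_univ _)).trans
    hO.point⟩

theorem bnd_controlled (hO : IsOrdinary O) (G : Sch k → Prop) : Bnd True (Controlled O G) where
  iso hX hi h := controlled_sub h (hO.iso hX hi)
  total i j hX ht hZ hU := controlled_two hZ hU (hO.total i j hX ht)
  opened i j hX ht hZ hX' := controlled_two hZ hX' (hO.opened i j hX ht)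
  closed i j hX ht hX' hU := controlled_two hX' hU (hO.closed i j hX ht)
  space n := by
    have h1 := (hO.bundle k (n + 1) (f1 k n) (aff k k) (𝟙 _) (isOpen_id k) (range_id_alg k n)).1
    have h2 : FT True (aff k (Jou (f1 k n))) := ft_aff True
    exact controlled_sub (controlled_sub (controlled_point hO) h1)
      (hO.iso h2 ⟨(affIso (jouOne k n)).symm⟩)
  jouanolou A _ _ _ m f U j hj hr h := controlled_sub h (hO.bundle A m f U j hj hr).2
  torus A _ _ _ h := controlled_sub h (hO.torus A)
  bundle A _ _ _ m f U j hj hr h := controlled_sub h (hO.bundle A m f U j hj hr).1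

/-- A list of controlled schemes. -/
lemma controlled_list (h : ∀ Y, G' Y → Controlled O G Y) (l : List (Sch k))
    (hl : ∀ Y ∈ l, G' Y) : ∃ l' : List (Sch k), (∀ Y ∈ l', G Y) ∧
      AlmostSub (common O l') (common O l) := by
  induction l with
  | nil => exact ⟨[], fun Y hY => absurd hY List.not_mem_nil, AlmostSub.refl _⟩
  | cons X l ih =>
    obtain ⟨l1, h1, hs1⟩ := ih fun Y hY => hl Y (List.mem_cons_of_mem _ hY)
    obtain ⟨l2, h2, hs2⟩ := h X (hl X List.mem_cons_self)
    refine ⟨l2 ++ l1, fun W hW => ?_, ?_⟩
    · rcases List.mem_append.mp hW with h | h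
      · exact h2 W h
      · exact h1 W h
    · rw [common_append]
      have h3 : common O (X :: l) = O X ∩ common O l := by
        ext v
        constructor
        · intro hv
          exact ⟨hv X List.mem_cons_self, fun Y hY => hv Y (List.mem_cons_of_mem _ hY)⟩
        · rintro ⟨hv1, hv2⟩ Y hY
          rcases List.mem_cons.mp hY with rfl | hY
          · exact hv1
          · exact hv2 Y hY
      rw [h3]
      exact AlmostSub.inter ((AlmostSub.of_sub Set.inter_subset_left).trans hs2)
        ((AlmostSub.of_sub Set.inter_subset_right).trans hs1)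

variable {L : Set V → Prop}

lemma jointly_of (hL : IsLargeness L) (h : ∀ Y, G' Y → Controlled O G Y) (hG : Jointly L O G) :
    Jointly L O G' := by
  intro l hl
  obtain ⟨l', hl', hs⟩ := controlled_list h l hl
  exact hL _ _ hs (hG l' hl')

/-- Single smooth projective schemes are sufficient. -/
lemma jointly_smproj (hO : IsOrdinary O) (hL : IsLargeness L) :
    (∀ X : Sch k, SmProj X → L (O X)) ↔ Jointly L O SmProj := by
  constructor
  · intro h l hl
    obtain ⟨Z, hZ, hs⟩ := hO.prod l hl
    refine hL _ _ ?_ (h Z hZ)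
    change AlmostSub (O Z) (common O l)
    clear hl
    induction l with
    | nil => exact AlmostSub.of_sub fun v _ Y hY => absurd hY List.not_mem_nil
    | cons X l ih =>
      have h1 := ih fun Y hY => hs Y (List.mem_cons_of_mem _ hY)
      refine (AlmostSub.inter (hs X List.mem_cons_self) h1).trans (AlmostSub.of_sub ?_)
      rintro v ⟨hv1, hv2⟩ Y hY
      rcases List.mem_cons.mp hY with rfl | hY
      · exact hv1
      · exact hv2 Y hY
  · intro h X hX
    refine hL _ _ (AlmostSub.of_sub ?_) (h [X] fun Y hY => ?_)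
    · intro v hv
      exact hv X (List.mem_singleton_self X)
    · rw [List.mem_singleton.mp hY]
      exact hX

end

end Pool.Agent.Y101.Ds
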