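import Pool.Agent.Y101.Th.PairDefs

/-!
# Sets of places of ordinary reduction: definitions
-/

set_option autoImplicit false

open CategoryTheory AlgebraicGeometry

namespace Pool.Agent.Y101.Ds

open Pool.Agent.Y116.UV Pool.Agent.Y101.Th

/-- All but finitely many elements of `S` are in `S'`. -/
def AlmostSub {V : Type} (S S' : Set V) : Prop := (S \ S').Finite

/-- Known properties of the sets `O X ⊆ V` of the places `v` of the number field `k` at which the
scheme `X` is ordinary, that is: for all `j`, `w` the Newton polygon at `v` of `gr^W_w H^j_c(X)` (the
representation of the Galois group on the étale cohomology with coefficients `ℚ_p`, where `p` is the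
characteristic of `v`, which is crystalline at `v` for almost all `v`) is its Hodge polygon. Here `gr^W`
is the graded piece for the weight filtration. All statements are up to finitely many places:

* isomorphic schemes;
* a closed subscheme `Z` of `X` with the complement `U`: if two of the three are ordinary at `v` then so
  is the third (the Hodge and the Newton polygon are additive in the exact sequences of the graded
  pieces, and the Newton polygon lies on or above the Hodge polygon);
* the affine bundle `Spec A[w_1, …, w_m] / (∑ f_l w_l - 1) → U`, where `U` is the complement of `f = 0`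
  in `Spec A`, is ordinary where `U` is ordinary;
* if `X × 𝔾_m` is ordinary at `v` then so is `X`; `Spec k` is ordinary;
* `prod`: for finitely many smooth projective schemes there is one (their product) which is ordinary
  only where they are all ordinary. -/
structure IsOrdinary {k V : Type} [Field k] (O : Sch k → Set V) : Prop where
  iso : ∀ {X Y : Sch k}, FT True X → Nonempty (X ≅ Y) → AlmostSub (O X) (O Y)
  total : ∀ {Z X U : Sch k} (i : Z ⟶ X) (j : U ⟶ X), FT True X → IsTriple i j →
    AlmostSub (O Z ∩ O U) (O X)
  opened : ∀ {Z X U : Sch k} (i : Z ⟶ X) (j : U ⟶ X), FT True X → IsTriple i j →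
    AlmostSub (O Z ∩ O X) (O U)
  closed : ∀ {Z X U : Sch k} (i : Z ⟶ X) (j : U ⟶ X), FT True X → IsTriple i j →
    AlmostSub (O X ∩ O U) (O Z)
  bundle : ∀ (A : Type) [CommRing A] [Algebra k A] [Algebra.FiniteType k A] (m : ℕ)
    (f : Fin m → A) (U : Sch k) (j : U ⟶ aff k A), IsOpenImmersion j.left →
    Set.range j.left = {x : PrimeSpectrum A | ∃ l, f l ∉ x.asIdeal} →
    AlmostSub (O U) (O (aff k (Jou f))) ∧ AlmostSub (O (aff k (Jou f))) (O U)
  torus : ∀ (A : Type) [CommRing A] [Algebra k A] [Algebra.FiniteType k A],
    AlmostSub (O (aff k (LaurentPolynomial A))) (O (aff k A))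
  point : AlmostSub Set.univ (O (aff k k))
  prod : ∀ l : List (Sch k), (∀ Y ∈ l, SmProj Y) → ∃ Z : Sch k, SmProj Z ∧
    ∀ Y ∈ l, AlmostSub (O Z) (O Y)

/-- For all finite families of schemes with the property `G`, the set of the places at which they are
all ordinary is large. -/
def Jointly {k V : Type} [Field k] (L : Set V → Prop) (O : Sch k → Set V) (G : Sch k → Prop) :
    Prop :=
  ∀ l : List (Sch k), (∀ Y ∈ l, G Y) → L {v | ∀ Y ∈ l, v ∈ O Y}

/-- A set that contains almost all elements of a large set is large. -/
def IsLargeness {V : Type} (L : Set V → Prop) : Prop :=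
  ∀ S S' : Set V, AlmostSub S S' → L S → L S'

end Pool.Agent.Y101.Ds
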