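import Pool.Agent.Y101.Ds.RegDefs
import Pool.Agent.Y101.Ds.Main

/-!
# Density of the regulators
-/

set_option autoImplicit false

open CategoryTheory AlgebraicGeometry MvPolynomial

namespace Pool.Agent.Y101.Ds

open Pool.Agent.Y116.UV Pool.Agent.Y101.Th Pool.Agent.Z125.UN

variable {k : Type} [Field k] {T : Reg k}

lemma IsRetract.dense {X Y : Sch k} (h : IsRetract T X Y) (hY : Dense T Y) : Dense T X := by
  intro i j
  obtain ⟨m, u, v, s, p, p', -, hp, hps, hr⟩ := h i j
  have h1 : DenseRange (fun (x : ∀ l, T.M Y (u l) (v l)) l => T.r Y (u l) (v l) (x l)) :=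
    DenseRange.piMap fun l => hY (u l) (v l)
  have h2 : Function.Surjective p := fun x => ⟨s x, hps x⟩
  have h3 : DenseRange (p ∘ fun (x : ∀ l, T.M Y (u l) (v l)) l => T.r Y (u l) (v l) (x l)) :=
    h2.denseRange.comp h1 hp
  refine Dense.mono ?_ h3
  rintro _ ⟨x, rfl⟩
  exact ⟨p' x, (hr x).symm⟩

theorem dsp_dense (hT : IsReg T) : Dsp (Dense T) where
  iso hX hs hi h := (hT.iso hX hs hi).2.dense h
  gysin σ _ m f hf hs h := (hT.gysin σ m f hf hs).dense h
  cover h X hX hs := by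
    obtain ⟨A, _, _, hA, hr⟩ := hT.cover X hX hs
    exact hr.dense (h A hA)

end Pool.Agent.Y101.Ds
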