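import Pool.Agent.Y101.Ds.Defs

/-!
# Regulators: definitions
-/

set_option autoImplicit false

open CategoryTheory AlgebraicGeometry MvPolynomial

namespace Pool.Agent.Y101.Ds

open Pool.Agent.Y116.UV

/-- Data for the smooth schemes `X` over the number field `k ⊆ ℂ`: the motivic cohomology
`M X i j = H^i_M(X_ℂ, ℚ(j))`, the absolute Hodge cohomology `H X i j = H^i_H(X_ℂ, ℚ(j))` with its
topology, and the regulator. -/
structure Reg (k : Type) [Field k] where
  M : Sch k → ℤ → ℤ → Type
  H : Sch k → ℤ → ℤ → Type
  [gM : ∀ X i j, AddCommGroup (M X i j)]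
  [gH : ∀ X i j, AddCommGroup (H X i j)]
  [tH : ∀ X i j, TopologicalSpace (H X i j)]
  r : ∀ X i j, M X i j →+ H X i j

attribute [instance] Reg.gM Reg.gH Reg.tH

variable {k : Type} [Field k]

/-- The regulators of `X` have dense image. -/
def Dense (T : Reg k) (X : Sch k) : Prop := ∀ i j, DenseRange (T.r X i j)

/-- Each `H^i_H(X, ℚ(j))` is a retract of a finite product of groups `H^u_H(Y, ℚ(v))`, with a
retraction `p` that is compatible with a map `p'` between the groups in motivic cohomology. (This is so
if the motive of `X` is a direct summand of a sum of twists and shifts of the motive of `Y`.) -/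
def IsRetract (T : Reg k) (X Y : Sch k) : Prop :=
  ∀ i j, ∃ (m : ℕ) (u v : Fin m → ℤ) (s : T.H X i j → ∀ l, T.H Y (u l) (v l))
    (p : (∀ l, T.H Y (u l) (v l)) → T.H X i j) (p' : (∀ l, T.M Y (u l) (v l)) → T.M X i j),
    Continuous s ∧ Continuous p ∧ (∀ x, p (s x) = x) ∧
      ∀ x, p (fun l => T.r Y (u l) (v l) (x l)) = T.r X i j (p' x)

/-- Known properties, for the smooth separated schemes of finite type over `k`:

* `iso`: isomorphic schemes have isomorphic cohomology;
* `gysin`: if the closed subscheme `X : f = 0` of an affine space is smooth and `f ≠ 0`, the cohomology of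
  `X` is a direct summand (the components of codimension `c` of `X` in the degrees `(i, j)` and
  `(i + 2 c - 1, j + c)`) of the cohomology of the affine bundle `∑ f_l w_l = 1` over the complement of
  `X` (the Gysin sequence, which splits because the complement has a rational point, and homotopy
  invariance);
* `cover`: the cohomology of `X` is a direct summand of the cohomology of a smooth affine scheme
  (Chow's lemma, resolution of singularities and Jouanolou's trick). -/
structure IsReg (T : Reg k) : Prop where
  iso : ∀ {X Y : Sch k}, FT True X → Smooth X.hom → Nonempty (X ≅ Y) →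
    IsRetract T X Y ∧ IsRetract T Y X
  gysin : ∀ (σ : Type) [Finite σ] (m : ℕ) (f : Fin m → MvPolynomial σ k), (∃ l, f l ≠ 0) →
    Smooth (zeroS f).hom → IsRetract T (zeroS f) (bundleS f)
  cover : ∀ X : Sch k, FT True X → Smooth X.hom →
    ∃ (A : Type) (_ : CommRing A) (_ : Algebra k A), Algebra.Smooth k A ∧ IsRetract T X (aff k A)

end Pool.Agent.Y101.Ds
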